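import Pool.Agent.Helper79.GL4.GoalsR

/-!
# GL4: the sign character of the lines over the field with two elements (`ES2`), MP_27a5f8_al
-/

set_option linter.unusedVariables false

namespace GL4

namespace ES2P

open Module Submodule

/-- ordered triples of nonzero vectors with sum zero -/
def Tr (V : Type) [AddCommGroup V] : Type := {f : Fin 3 → V // ∑ i, f i = 0 ∧ ∀ i, f i ≠ 0}

section act
variable (F : Type) [Field F] (V : Type) [AddCommGroup V] [Module F V]

instance actG : MulAction (V ≃ₗ[F] V) (Tr V) where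
  smul g x := ⟨fun i => g (x.1 i), by
    constructor
    · rw [← map_sum, x.2.1, map_zero]
    · intro i h
      exact x.2.2 i (by simpa using h)⟩
  one_smul x := rfl
  mul_smul g h x := rfl

instance actT : MulAction (Equiv.Perm (Fin 3)) (Tr V) where
  smul s x := ⟨fun i => x.1 (s⁻¹ i), by
    constructor
    · rw [Equiv.sum_comp s⁻¹ x.1, x.2.1]
    · intro i
      exact x.2.2 _⟩
  one_smul x := rfl
  mul_smul s t x := by
    apply Subtype.ext
    funext i
    change x.1 ((s * t)⁻¹ i) = x.1 (t⁻¹ (s⁻¹ i))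
    rw [mul_inv_rev]; rfl

instance commGT : SMulCommClass (V ≃ₗ[F] V) (Equiv.Perm (Fin 3)) (Tr V) := ⟨fun g s x => rfl⟩

end act

section facts
variable {F : Type} [Field F] {V : Type} [AddCommGroup V] [Module F V]

theorem smulG_apply (g : V ≃ₗ[F] V) (x : Tr V) (i : Fin 3) : (g • x).1 i = g (x.1 i) := rfl

theorem smulT_apply (s : Equiv.Perm (Fin 3)) (x : Tr V) (i : Fin 3) :
    (s • x).1 i = x.1 (s⁻¹ i) := rfl

theorem f01 (h2 : Nat.card F = 2) (c : F) : c = 0 ∨ c = 1 := by
  obtain ⟨y, hy, hu⟩ := (Nat.card_eq_two_iff' (0 : F)).1 h2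
  by_cases hc : c = 0
  · exact Or.inl hc
  · right
    rw [hu c hc, hu 1 one_ne_zero]

theorem char2 (h2 : Nat.card F = 2) : (1 : F) + 1 = 0 := by
  rcases f01 h2 ((1 : F) + 1) with h | h
  · exact h
  · exfalso
    have : (1 : F) = 0 := by
      have h3 : (1 : F) + 1 = 1 + 0 := by rw [h, add_zero]
      exact add_left_cancel h3
    exact one_ne_zero this

end facts

section facts1
variable {V : Type} [AddCommGroup V]

theorem add_self (F : Type) [Field F] [Module F V] (h2 : Nat.card F = 2) (v : V) : v + v = 0 := by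
  have : ((1 : F) + 1) • v = 0 := by rw [char2 h2, zero_smul]
  rwa [add_smul, one_smul] at this

theorem third (F : Type) [Field F] [Module F V] (h2 : Nat.card F = 2) (x : Tr V) :
    x.1 0 + x.1 1 = x.1 2 ∧ x.1 0 + x.1 2 = x.1 1 ∧ x.1 1 + x.1 2 = x.1 0 := by
  have h := x.2.1
  rw [Fin.sum_univ_three] at h
  have e0 := add_self F h2 (x.1 0)
  have e1 := add_self F h2 (x.1 1)
  have e2 := add_self F h2 (x.1 2)
  refine ⟨?_, ?_, ?_⟩
  · calc x.1 0 + x.1 1 = (x.1 0 + x.1 1 + x.1 2) + x.1 2 - (x.1 2 + x.1 2) := by abel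
      _ = x.1 2 := by rw [h, e2]; simp
  · calc x.1 0 + x.1 2 = (x.1 0 + x.1 1 + x.1 2) + x.1 1 - (x.1 1 + x.1 1) := by abel
      _ = x.1 1 := by rw [h, e1]; simp
  · calc x.1 1 + x.1 2 = (x.1 0 + x.1 1 + x.1 2) + x.1 0 - (x.1 0 + x.1 0) := by abel
      _ = x.1 0 := by rw [h, e0]; simp

theorem tr_inj (F : Type) [Field F] [Module F V] (h2 : Nat.card F = 2) (x : Tr V) :
    Function.Injective x.1 := by
  obtain ⟨a, b, c⟩ := third F h2 x
  have n0 := x.2.2 0
  have n1 := x.2.2 1
  have n2 := x.2.2 2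
  have h01 : x.1 0 ≠ x.1 1 := by
    intro h; rw [h, add_self F h2] at a; exact n2 a.symm
  have h02 : x.1 0 ≠ x.1 2 := by
    intro h; rw [h, add_self F h2] at b; exact n1 b.symm
  have h12 : x.1 1 ≠ x.1 2 := by
    intro h; rw [h, add_self F h2] at c; exact n0 c.symm
  intro i j hij
  fin_cases i <;> fin_cases j <;> first | rfl | (exfalso; first | exact h01 hij | exact h02 hij | exact h12 hij | exact h01 hij.symm | exact h02 hij.symm | exact h12 hij.symm)

end facts1

section facts2
variable {F : Type} [Field F] {V : Type} [AddCommGroup V] [Module F V]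

theorem tr_li (h2 : Nat.card F = 2) (x : Tr V) : LinearIndependent F ![x.1 0, x.1 1] := by
  rw [LinearIndependent.pair_iff]
  intro s t h
  have n0 := x.2.2 0
  have n1 := x.2.2 1
  have n2 := x.2.2 2
  obtain ⟨a, b, c⟩ := third F h2 x
  rcases f01 h2 s with rfl | rfl <;> rcases f01 h2 t with rfl | rfl
  · exact ⟨rfl, rfl⟩
  · exfalso; apply n1; simpa using h
  · exfalso; apply n0; simpa using h
  · exfalso; apply n2; rw [← a]; simpa using h

theorem tr_trans [FiniteDimensional F V] (h2 : Nat.card F = 2) (x y : Tr V) :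
    ∃ g : V ≃ₗ[F] V, g • x = y := by
  have hx := tr_li (F := F) h2 x
  have hy := tr_li (F := F) h2 y
  let e : span F (Set.range ![x.1 0, x.1 1]) ≃ₗ[F] span F (Set.range ![y.1 0, y.1 1]) :=
    (Basis.span hx).equiv (Basis.span hy) (Equiv.refl _)
  obtain ⟨g, hg⟩ := Submodule.exists_linearEquiv_restrict_eq e
  have key : ∀ i : Fin 2, g (![x.1 0, x.1 1] i) = ![y.1 0, y.1 1] i := by
    intro i
    have h1 := hg (Basis.span hx i)
    have h3 : e (Basis.span hx i) = Basis.span hy i :=
      Basis.equiv_apply (Basis.span hx) i (Basis.span hy) (Equiv.refl _)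
    rw [h3] at h1
    rw [Basis.span_apply, Basis.span_apply] at h1
    exact h1.symm
  have k0 : g (x.1 0) = y.1 0 := key 0
  have k1 : g (x.1 1) = y.1 1 := key 1
  have k2 : g (x.1 2) = y.1 2 := by
    rw [← (third F h2 x).1, ← (third F h2 y).1, map_add, k0, k1]
  refine ⟨g, Subtype.ext (funext fun i => ?_)⟩
  fin_cases i
  · exact k0
  · exact k1
  · exact k2

/-- the transvection `v ↦ v + f(v) u` -/
noncomputable def tv (h2 : Nat.card F = 2) (f : Module.Dual F V) (u : V) (hu : f u = 0) :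
    V ≃ₗ[F] V :=
  LinearEquiv.ofInvolutive (LinearMap.id + f.smulRight u) (by
    intro v
    have e := add_self F h2 (f v • u)
    have : f (v + f v • u) = f v := by rw [map_add, map_smul, hu, smul_zero, add_zero]
    simp only [LinearMap.add_apply, LinearMap.id_apply, LinearMap.smulRight_apply, this]
    rw [add_assoc, e, add_zero])

theorem tv_apply (h2 : Nat.card F = 2) (f : Module.Dual F V) (u : V) (hu : f u = 0) (v : V) :
    tv h2 f u hu v = v + f v • u := rfl

theorem swapL (h2 : Nat.card F = 2) (x : Tr V) (f : Module.Dual F V) (hf : ∃ i, f (x.1 i) ≠ 0) :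
    ∃ (g : V ≃ₗ[F] V) (s : Equiv.Perm (Fin 3)), g • x = s • x ∧ Equiv.Perm.sign s = -1 ∧
      ∀ v, f v = 0 → g v = v := by
  obtain ⟨a, b, c⟩ := third F h2 x
  have hs : f (x.1 0) + f (x.1 1) + f (x.1 2) = 0 := by
    rw [← map_add, ← map_add, ← Fin.sum_univ_three, x.2.1, map_zero]
  have e11 := char2 h2
  rcases f01 h2 (f (x.1 0)) with h0 | h0 <;> rcases f01 h2 (f (x.1 1)) with h1 | h1 <;>
    rcases f01 h2 (f (x.1 2)) with hh2 | hh2
  · exfalso
    obtain ⟨i, hi⟩ := hf
    fin_cases i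
    · exact hi h0
    · exact hi h1
    · exact hi hh2
  · exfalso; rw [h0, h1, hh2] at hs; simp at hs
  · exfalso; rw [h0, h1, hh2] at hs; simp at hs
  · -- (0,1,1)
    refine ⟨tv h2 f (x.1 0) h0, Equiv.swap 1 2, ?_, ?_, ?_⟩
    · apply Subtype.ext
      funext i
      rw [smulG_apply, smulT_apply, tv_apply, Equiv.swap_inv]
      fin_cases i
      · change x.1 0 + f (x.1 0) • x.1 0 = x.1 0
        rw [h0, zero_smul, add_zero]
      · change x.1 1 + f (x.1 1) • x.1 0 = x.1 2
        rw [h1, one_smul, add_comm, a]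
      · change x.1 2 + f (x.1 2) • x.1 0 = x.1 1
        rw [hh2, one_smul, add_comm, b]
    · decide
    · intro v hv; rw [tv_apply, hv, zero_smul, add_zero]
  · exfalso; rw [h0, h1, hh2] at hs; simp at hs
  · -- (1,0,1)
    refine ⟨tv h2 f (x.1 1) h1, Equiv.swap 0 2, ?_, ?_, ?_⟩
    · apply Subtype.ext
      funext i
      rw [smulG_apply, smulT_apply, tv_apply, Equiv.swap_inv]
      fin_cases i
      · change x.1 0 + f (x.1 0) • x.1 1 = x.1 2
        rw [h0, one_smul, a]
      · change x.1 1 + f (x.1 1) • x.1 1 = x.1 1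
        rw [h1, zero_smul, add_zero]
      · change x.1 2 + f (x.1 2) • x.1 1 = x.1 0
        rw [hh2, one_smul, add_comm, c]
    · decide
    · intro v hv; rw [tv_apply, hv, zero_smul, add_zero]
  · -- (1,1,0)
    refine ⟨tv h2 f (x.1 2) hh2, Equiv.swap 0 1, ?_, ?_, ?_⟩
    · apply Subtype.ext
      funext i
      rw [smulG_apply, smulT_apply, tv_apply, Equiv.swap_inv]
      fin_cases i
      · change x.1 0 + f (x.1 0) • x.1 2 = x.1 1
        rw [h0, one_smul, b]
      · change x.1 1 + f (x.1 1) • x.1 2 = x.1 0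
        rw [h1, one_smul, c]
      · change x.1 2 + f (x.1 2) • x.1 2 = x.1 2
        rw [hh2, zero_smul, add_zero]
    · decide
    · intro v hv; rw [tv_apply, hv, zero_smul, add_zero]
  · exfalso; rw [h0, h1, hh2, e11, zero_add] at hs; exact one_ne_zero hs

/-- the span of a triple consists of `0` and the three vectors -/
theorem mem_span_tr (h2 : Nat.card F = 2) (y : Tr V) {v : V}
    (hv : v ∈ span F ({y.1 0, y.1 1} : Set V)) (h0 : v ≠ 0) : ∃ j, v = y.1 j := by
  obtain ⟨a, b, rfl⟩ := Submodule.mem_span_pair.1 hv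
  rcases f01 h2 a with rfl | rfl <;> rcases f01 h2 b with rfl | rfl
  · exfalso; apply h0; simp
  · exact ⟨1, by simp⟩
  · exact ⟨0, by simp⟩
  · exact ⟨2, by rw [one_smul, one_smul, (third F h2 y).1]⟩

theorem tr_mem_span (h2 : Nat.card F = 2) (y : Tr V) (i : Fin 3) :
    y.1 i ∈ span F ({y.1 0, y.1 1} : Set V) := by
  have m0 : y.1 0 ∈ span F ({y.1 0, y.1 1} : Set V) := subset_span (by simp)
  have m1 : y.1 1 ∈ span F ({y.1 0, y.1 1} : Set V) := subset_span (by simp)
  fin_cases i
  · exact m0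
  · exact m1
  · change y.1 2 ∈ _
    rw [← (third F h2 y).1]
    exact add_mem m0 m1

theorem exists_not_mem (h2 : Nat.card F = 2) (x y : Tr V)
    (h : ¬ ∃ t : Equiv.Perm (Fin 3), t • x = y) :
    ∃ i, x.1 i ∉ span F ({y.1 0, y.1 1} : Set V) := by
  by_contra hc
  push Not at hc
  apply h
  have : ∀ i, ∃ j, x.1 i = y.1 j := fun i => mem_span_tr h2 y (hc i) (x.2.2 i)
  choose s hs using this
  have sinj : Function.Injective s := by
    intro i j hij
    apply tr_inj F h2 x
    rw [hs i, hs j, hij]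
  let e : Equiv.Perm (Fin 3) := Equiv.ofBijective s (Finite.injective_iff_bijective.1 sinj)
  refine ⟨e, Subtype.ext (funext fun i => ?_)⟩
  rw [smulT_apply, hs]
  have : s (e⁻¹ i) = i := e.apply_symm_apply i
  rw [this]

end facts2

theorem sign_fact : ∀ t : Equiv.Perm (Fin 3), Equiv.Perm.sign t ≠ 1 →
    (∃ i, t⁻¹ i = i) ∧ (∃ j, t⁻¹ j ≠ j) := by decide

end ES2P

open ES2P Module Submodule in
theorem es2 (hML : ML) : ES2 := by
  intro F _ _ V _ _ _ hr h2
  classical
  have hVfin : Finite V := Module.finite_of_finite F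
  have : Finite (Tr V) := Subtype.finite
  -- nonempty
  have mk : ∀ v w : V, v ≠ 0 → w ≠ 0 → v + w ≠ 0 → ∃ x : Tr V, x.1 0 = v ∧ x.1 1 = w := by
    intro v w hv hw hvw
    refine ⟨⟨![v, w, v + w], ?_, ?_⟩, rfl, rfl⟩
    · rw [Fin.sum_univ_three]
      exact add_self F h2 (v + w)
    · intro i
      fin_cases i
      · exact hv
      · exact hw
      · exact hvw
  -- triples in a subspace of dimension at least two
  have mkL : ∀ L : Submodule F V, 2 ≤ finrank F L → ∃ x : Tr V, ∀ i, x.1 i ∈ L := by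
    intro L hL
    obtain ⟨v, hvL, hv⟩ : ∃ v ∈ L, v ≠ 0 := by
      apply Submodule.exists_mem_ne_zero_of_ne_bot
      rintro rfl
      simp at hL
    obtain ⟨w, hwL, hw⟩ : ∃ w ∈ L, w ∉ (F ∙ v) := by
      by_contra hc
      push Not at hc
      have h1 : L ≤ F ∙ v := hc
      have h3 := Submodule.finrank_mono h1
      rw [finrank_span_singleton hv] at h3
      omega
    have hw0 : w ≠ 0 := by rintro rfl; exact hw (zero_mem _)
    have hvw : v + w ≠ 0 := by
      intro h
      apply hw
      have : w = -v := (neg_eq_of_add_eq_zero_right h).symm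
      rw [this]
      exact neg_mem (mem_span_singleton_self v)
    obtain ⟨x, hx0, hx1⟩ := mk v w hv hw0 hvw
    refine ⟨x, fun i => ?_⟩
    fin_cases i
    · change x.1 0 ∈ L; rw [hx0]; exact hvL
    · change x.1 1 ∈ L; rw [hx1]; exact hwL
    · change x.1 2 ∈ L; rw [← (third F h2 x).1, hx0, hx1]; exact add_mem hvL hwL
  obtain ⟨x0, -⟩ := mkL ⊤ (by rw [finrank_top]; exact hr)
  have : Nonempty (Tr V) := ⟨x0⟩
  let lam : Equiv.Perm (Fin 3) →* ℂˣ :=
    (Units.map (Int.castRingHom ℂ).toMonoidHom).comp Equiv.Perm.sign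
  have lam_val : ∀ t, ((lam t : ℂˣ) : ℂ) = ((Equiv.Perm.sign t : ℤ) : ℂ) := fun t => rfl
  have lam_neg : ∀ s, Equiv.Perm.sign s = -1 → lam s ≠ 1 := by
    intro s hs h
    have h1 := lam_val s
    rw [h, hs] at h1
    norm_num at h1
  have lam_one : ∀ t, lam t ≠ 1 → Equiv.Perm.sign t ≠ 1 := by
    intro t ht hs
    apply ht
    apply Units.ext
    rw [lam_val, hs]; simp
  obtain ⟨χ, hχ, hχ1, hK⟩ := hML (V ≃ₗ[F] V) (Equiv.Perm (Fin 3)) (Tr V) lam
    (by
      intro t x h
      ext i
      have h1 : (t • x).1 (t i) = x.1 (t i) := by rw [h]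
      rw [smulT_apply] at h1
      have h3 : t⁻¹ (t i) = i := t.symm_apply_apply i
      rw [h3] at h1
      have h4 := tr_inj F h2 x h1
      rw [← h4]; rfl)
    (by
      intro x y
      obtain ⟨g, hg⟩ := tr_trans (F := F) h2 x y
      exact ⟨g, 1, by rw [hg, one_smul]⟩)
    (by
      intro x y h
      obtain ⟨i, hi⟩ := exists_not_mem (F := F) h2 x y h
      obtain ⟨f, hf, hker⟩ := Submodule.exists_le_ker_of_notMem hi
      obtain ⟨g, s, h1, h3, h4⟩ := swapL h2 x f ⟨i, hf⟩
      refine ⟨g, s, 1, h1, ?_, ?_⟩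
      · rw [one_smul]
        apply Subtype.ext
        funext j
        rw [smulG_apply]
        exact h4 _ (hker (tr_mem_span h2 y j))
      · rw [map_one]; exact lam_neg s h3)
    (by
      have : x0.1 1 ∉ (F ∙ x0.1 0) := by
        intro h
        obtain ⟨c, hc⟩ := mem_span_singleton.1 h
        rcases f01 h2 c with rfl | rfl
        · rw [zero_smul] at hc; exact x0.2.2 1 hc.symm
        · rw [one_smul] at hc
          exact absurd (tr_inj F h2 x0 hc) (by decide)
      obtain ⟨f, hf, hker⟩ := Submodule.exists_le_ker_of_notMem this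
      obtain ⟨g, s, h1, h3, h4⟩ := swapL h2 x0 f ⟨1, hf⟩
      exact ⟨x0, g, s, h1, lam_neg s h3⟩)
  refine ⟨χ, hχ, hχ1, fun K hKm L hL => ?_⟩
  obtain ⟨x, hx⟩ := mkL L (by rw [Ln] at hL; omega)
  obtain ⟨k, hk, t, hkt, ht⟩ := hK K hKm x
  have hact : ∀ i, k (x.1 i) = x.1 (t⁻¹ i) := fun i => by
    rw [← smulG_apply, hkt, smulT_apply]
  have hspan : span F ({x.1 0, x.1 1} : Set V) = L := by
    apply Submodule.eq_of_le_of_finrank_eq
    · rw [span_le]
      rintro v hv
      rcases hv with rfl | rfl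
      · exact hx 0
      · exact hx 1
    · rw [Ln] at hL
      rw [hL]
      have hli := tr_li (F := F) h2 x
      have h5 := finrank_span_eq_card hli
      rw [Fintype.card_fin] at h5
      have h6 : Set.range ![x.1 0, x.1 1] = ({x.1 0, x.1 1} : Set V) := by
        simp [Set.pair_comm]
      rw [h6] at h5
      exact h5
  have himL : im k L = L := by
    apply im_eq_of_le
    rw [← hspan, im, Submodule.map_span, span_le]
    rintro v ⟨w, hw, rfl⟩
    rw [hspan]
    rcases hw with rfl | rfl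
    · change k (x.1 0) ∈ L
      rw [hact]; exact hx _
    · change k (x.1 1) ∈ L
      rw [hact]; exact hx _
  obtain ⟨⟨i, hi⟩, j, hj⟩ := sign_fact t (lam_one t ht)
  refine ⟨k, hk, himL, F ∙ x.1 i, F ∙ x.1 j, pt_span (x.2.2 i), pt_span (x.2.2 j), ?_, ?_, ?_, ?_⟩
  · rw [span_singleton_le_iff_mem]; exact hx i
  · rw [span_singleton_le_iff_mem]; exact hx j
  · rw [im_span_singleton, hact, hi]
  · rw [im_span_singleton, hact]
    intro h
    have h1 : x.1 (t⁻¹ j) ∈ (F ∙ x.1 j) := by rw [← h]; exact mem_span_singleton_self _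
    obtain ⟨c, hc⟩ := mem_span_singleton.1 h1
    rcases f01 h2 c with rfl | rfl
    · rw [zero_smul] at hc; exact x.2.2 _ hc.symm
    · rw [one_smul] at hc
      exact hj (tr_inj F h2 x hc).symm

end GL4
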